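import Mathlib

/-!
# Selective high divergence does not descend from the Pixley-Roy hyperspace
-/

set_option autoImplicit false

open Set Filter Topology

namespace Pool.Agent.Results.MP_f85c9e_gt.Cofinite

/-- `X` is selectively highly divergent: for every sequence of nonempty open sets one can choose
points of these sets such that no subsequence of the sequence of the points converges. -/
def SHD (X : Type) [TopologicalSpace X] : Prop :=
  ∀ U : ℕ → Set X, (∀ n, IsOpen (U n)) → (∀ n, (U n).Nonempty) →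
    ∃ x : ℕ → X, (∀ n, x n ∈ U n) ∧
      ∀ φ : ℕ → ℕ, StrictMono φ → ¬ ∃ a : X, Tendsto (x ∘ φ) atTop (𝓝 a)

/-- The points of the Pixley-Roy hyperspace: the nonempty finite subsets of `X`. -/
def PixleyRoy (X : Type) : Type := {A : Set X // A.Finite ∧ A.Nonempty}

/-- The topology of the Pixley-Roy hyperspace: the sets
`[F, V] = {H | F ⊆ H ⊆ V}`, `V` open, `F ⊆ V`, form a local base at `F`. -/
instance (X : Type) [TopologicalSpace X] : TopologicalSpace (PixleyRoy X) where
  IsOpen 𝒰 := ∀ F ∈ 𝒰, ∃ V : Set X, IsOpen V ∧ F.1 ⊆ V ∧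
    {H : PixleyRoy X | F.1 ⊆ H.1 ∧ H.1 ⊆ V} ⊆ 𝒰
  isOpen_univ := fun F _ => ⟨univ, isOpen_univ, subset_univ _, subset_univ _⟩
  isOpen_inter := by
    rintro 𝒰 𝒱 h𝒰 h𝒱 F ⟨hF1, hF2⟩
    obtain ⟨V, hV, hFV, hVU⟩ := h𝒰 F hF1
    obtain ⟨W, hW, hFW, hWV⟩ := h𝒱 F hF2
    refine ⟨V ∩ W, hV.inter hW, subset_inter hFV hFW, ?_⟩
    rintro H ⟨h1, h2⟩
    exact ⟨hVU ⟨h1, h2.trans inter_subset_left⟩, hWV ⟨h1, h2.trans inter_subset_right⟩⟩
  isOpen_sUnion := by
    rintro S hS F ⟨𝒰, h𝒰, hF⟩
    obtain ⟨V, hV, hFV, hVU⟩ := hS 𝒰 h𝒰 F hF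
    exact ⟨V, hV, hFV, hVU.trans (subset_sUnion_of_mem h𝒰)⟩

theorem isOpen_basic {X : Type} [TopologicalSpace X] (F : Set X) {V : Set X} (hV : IsOpen V) :
    IsOpen {H : PixleyRoy X | F ⊆ H.1 ∧ H.1 ⊆ V} := by
  rintro G ⟨hG1, hG2⟩
  exact ⟨V, hV, hG2, fun H hH => ⟨hG1.trans hH.1, hH.2⟩⟩

/-- Negative answer: there is a `T₁` space whose Pixley-Roy hyperspace is selectively highly
divergent but which is not selectively highly divergent itself. -/
theorem result : ∃ (X : Type) (_ : TopologicalSpace X), T1Space X ∧ SHD (PixleyRoy X) ∧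
    ¬ SHD X := by
  refine ⟨CofiniteTopology ℝ, inferInstance, inferInstance, ?_, ?_⟩
  · intro U hU hne
    choose F hF using hne
    choose V hV hFV hVU using fun n => hU n (F n) (hF n)
    have hVfin : ∀ n, ((V n)ᶜ : Set (CofiniteTopology ℝ)).Finite := fun n =>
      CofiniteTopology.isOpen_iff.1 (hV n) ((F n).2.2.mono (hFV n))
    have hcount : (⋃ n, ((V n)ᶜ : Set (CofiniteTopology ℝ))).Countable :=
      countable_iUnion fun n => (hVfin n).countable
    have hinf : ((⋃ n, ((V n)ᶜ : Set (CofiniteTopology ℝ)))ᶜ).Infinite := by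
      intro hfin
      have h2 : (univ : Set (CofiniteTopology ℝ)).Countable := by
        rw [← union_compl_self (⋃ n, ((V n)ᶜ : Set (CofiniteTopology ℝ)))]
        exact hcount.union hfin.countable
      have h3 : Countable (CofiniteTopology ℝ) := countable_univ_iff.1 h2
      have h4 : Countable ℝ := CofiniteTopology.of.countable_iff.2 h3
      exact not_countable h4
    let z : ℕ → CofiniteTopology ℝ := fun n => (hinf.natEmbedding _ n : CofiniteTopology ℝ)
    have hzinj : Function.Injective z :=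
      Subtype.val_injective.comp (hinf.natEmbedding _).injective
    have hzV : ∀ i n, z i ∈ V n := by
      intro i n
      have h1 : z i ∈ (⋃ n, ((V n)ᶜ : Set (CofiniteTopology ℝ)))ᶜ := (hinf.natEmbedding _ i).2
      by_contra h2
      exact h1 (mem_iUnion.2 ⟨n, h2⟩)
    refine ⟨fun n => ⟨(F n).1 ∪ z '' Iic n, (F n).2.1.union ((finite_Iic n).image z),
      (F n).2.2.mono subset_union_left⟩, ?_, ?_⟩
    · intro n
      apply hVU n
      refine ⟨subset_union_left, union_subset (hFV n) ?_⟩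
      rintro _ ⟨i, -, rfl⟩
      exact hzV i n
    · rintro φ hφ ⟨H, hH⟩
      have hzH : ∀ i, z i ∈ H.1 := by
        intro i
        by_contra hi
        have hopen : IsOpen ({z i}ᶜ : Set (CofiniteTopology ℝ)) := isOpen_compl_singleton
        have hnb := (isOpen_basic H.1 hopen).mem_nhds
          (show H ∈ {G : PixleyRoy (CofiniteTopology ℝ) | H.1 ⊆ G.1 ∧ G.1 ⊆ {z i}ᶜ} from
            ⟨subset_rfl, fun x hx hxi => hi (mem_singleton_iff.1 hxi ▸ hx)⟩)
        obtain ⟨k, hk1, hk2⟩ := ((hH.eventually hnb).and (eventually_ge_atTop i)).exists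
        have hmem : z i ∈ (F (φ k)).1 ∪ z '' Iic (φ k) :=
          Or.inr ⟨i, le_trans hk2 (hφ.id_le k), rfl⟩
        exact hk1.2 hmem rfl
      have hsub : range z ⊆ H.1 := by
        rintro _ ⟨i, rfl⟩
        exact hzH i
      exact (infinite_range_of_injective hzinj) (H.2.1.subset hsub)
  · intro h
    obtain ⟨x, -, hx⟩ := h (fun _ => univ) (fun _ => isOpen_univ) fun _ => univ_nonempty
    by_cases hc : ∃ a, {n | x n = a}.Infinite
    · obtain ⟨a, ha⟩ := hc
      apply hx (Nat.nth (fun n => x n = a)) (Nat.nth_strictMono ha)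
      refine ⟨a, ?_⟩
      have : (x ∘ Nat.nth (fun n => x n = a)) = fun _ => a := by
        funext k
        exact Nat.nth_mem_of_infinite ha k
      rw [this]
      exact tendsto_const_nhds
    · push Not at hc
      apply hx id strictMono_id
      refine ⟨x 0, ?_⟩
      rw [CofiniteTopology.nhds_eq]
      apply Tendsto.mono_right _ le_sup_right
      rw [Function.comp_id, tendsto_def]
      intro s hs
      rw [mem_cofinite] at hs
      rw [← Nat.cofinite_eq_atTop, mem_cofinite]
      have h1 : (x ⁻¹' s)ᶜ = ⋃ a ∈ sᶜ, {n | x n = a} := by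
        ext n
        simp
      rw [h1]
      exact hs.biUnion fun a _ => hc a

end Pool.Agent.Results.MP_f85c9e_gt.Cofinite
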